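import Mathlib
import Pool.Agent.Helper436.SM.RF1

/-!
# A bounded geometry metric space without property A

The space is the disjoint union of finite quotients `Q n` of the free group of rank two in which the
words of length at most `n` survive; words act by left multiplication. Two points of one piece have
distance the length of the shortest word that moves one to the other, truncated at `n + 1`.
-/

set_option autoImplicit false

namespace Pool.Agent.H872_pONL

/-- the free group of rank two -/
abbrev F : Type := FreeGroup Bool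

lemma ball_finite (n : ℕ) : {w : F | w.norm ≤ n}.Finite :=
  (List.finite_length_le (Bool × Bool) n).preimage
    (FreeGroup.toWord_injective (α := Bool)).injOn

lemma exists_quot (n : ℕ) : ∃ (Q : Type) (_ : Group Q) (_ : Finite Q) (φ : F →* Q),
    ∀ w : F, w.norm ≤ n → φ w = 1 → w = 1 := by
  classical
  have h : ∀ w : F, ∃ (m : ℕ) (e : Bool → Equiv.Perm (Fin m)),
      w ≠ 1 → FreeGroup.lift e w ≠ 1 := by
    intro w
    by_cases hw : w = 1
    · exact ⟨0, fun _ => 1, fun h => absurd hw h⟩
    · obtain ⟨m, e, he⟩ := Pool.Agent.Helper436.SM.free_rf w hw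
      exact ⟨m, e, fun _ => he⟩
  choose m e he using h
  refine ⟨(w : (ball_finite n).toFinset) → Equiv.Perm (Fin (m w)), inferInstance, inferInstance,
    MonoidHom.pi fun w => FreeGroup.lift (e w), ?_⟩
  intro w hw h1
  by_contra hne
  exact he w hne (congrFun h1 ⟨w, by simpa using hw⟩)

/-- the finite quotients -/
def Qt (n : ℕ) : Type := (exists_quot n).choose

noncomputable instance (n : ℕ) : Group (Qt n) := (exists_quot n).choose_spec.choose

instance (n : ℕ) : Finite (Qt n) := (exists_quot n).choose_spec.choose_spec.choose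

/-- the quotient maps -/
noncomputable def ph (n : ℕ) : F →* Qt n := (exists_quot n).choose_spec.choose_spec.choose_spec.choose

lemma ph_inj (n : ℕ) (w : F) (hw : w.norm ≤ n) (h : ph n w = 1) : w = 1 :=
  (exists_quot n).choose_spec.choose_spec.choose_spec.choose_spec w hw h

/-- the space -/
def XX : Type := Σ n, Qt n

/-- the action of the free group -/
noncomputable def act (w : F) (x : XX) : XX := ⟨x.1, ph x.1 w * x.2⟩

lemma act_fst (w : F) (x : XX) : (act w x).1 = x.1 := rfl

lemma act_one (x : XX) : act 1 x = x := by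
  unfold act
  rw [map_one, one_mul]
  rfl

lemma act_mul (w v : F) (x : XX) : act (w * v) x = act w (act v x) := by
  have h : ph x.1 (w * v) * x.2 = ph x.1 w * (ph x.1 v * x.2) := by rw [map_mul, mul_assoc]
  unfold act
  rw [h]

/-- the distance is at most `k` -/
def rel (k : ℕ) (p q : XX) : Prop := (∃ w : F, w.norm ≤ k ∧ act w q = p) ∨ max p.1 q.1 + 1 ≤ k

/-- the distance, a natural number -/
noncomputable def dN (p q : XX) : ℕ := sInf {k | rel k p q}

lemma rel_dN (p q : XX) : rel (dN p q) p q :=
  Nat.sInf_mem (s := {k | rel k p q}) ⟨max p.1 q.1 + 1, Or.inr le_rfl⟩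

lemma dN_le {k : ℕ} {p q : XX} (h : rel k p q) : dN p q ≤ k := Nat.sInf_le h

lemma rel_symm {k : ℕ} {p q : XX} (h : rel k p q) : rel k q p := by
  rcases h with ⟨w, hw, rfl⟩ | h
  · refine Or.inl ⟨w⁻¹, by rwa [FreeGroup.norm_inv_eq], ?_⟩
    rw [← act_mul, inv_mul_cancel, act_one]
  · right
    rwa [max_comm]

lemma rel_trans {k l : ℕ} {p q r : XX} (h : rel k p q) (h' : rel l q r) : rel (k + l) p r := by
  rcases h with ⟨w, hw, rfl⟩ | h
  · rcases h' with ⟨v, hv, rfl⟩ | h'
    · refine Or.inl ⟨w * v, (FreeGroup.norm_mul_le w v).trans (add_le_add hw hv), ?_⟩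
      rw [act_mul]
    · right
      rw [act_fst]
      omega
  · rcases h' with ⟨v, hv, rfl⟩ | h'
    · right
      rw [act_fst] at h
      omega
    · right
      have h1 : max p.1 r.1 ≤ max (max p.1 q.1) (max q.1 r.1) :=
        max_le_max (le_max_left _ _) (le_max_right _ _)
      have h2 : max (max p.1 q.1) (max q.1 r.1) + 1 ≤ k + l := by
        rcases le_total (max p.1 q.1) (max q.1 r.1) with h3 | h3
        · rw [max_eq_right h3]; omega
        · rw [max_eq_left h3]; omega
      omega

lemma dN_self (p : XX) : dN p p = 0 :=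
  Nat.le_zero.1 (dN_le (Or.inl ⟨1, by rw [FreeGroup.norm_one], act_one p⟩))

lemma dN_comm (p q : XX) : dN p q = dN q p :=
  le_antisymm (dN_le (rel_symm (rel_dN q p))) (dN_le (rel_symm (rel_dN p q)))

lemma dN_triangle (p q r : XX) : dN p r ≤ dN p q + dN q r :=
  dN_le (rel_trans (rel_dN p q) (rel_dN q r))

lemma eq_of_dN {p q : XX} (h : dN p q = 0) : p = q := by
  have h1 := rel_dN p q
  rw [h] at h1
  rcases h1 with ⟨w, hw, rfl⟩ | h1
  · rw [Nat.le_zero, FreeGroup.norm_eq_zero] at hw
    rw [hw, act_one]
  · omega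

noncomputable instance : MetricSpace XX where
  dist p q := (dN p q : ℝ)
  dist_self p := by
    rw [dN_self, Nat.cast_zero]
  dist_comm p q := by
    rw [dN_comm]
  dist_triangle p q r := by
    exact_mod_cast dN_triangle p q r
  eq_of_dist_eq_zero {p q} h := by
    change (dN p q : ℝ) = 0 at h
    exact eq_of_dN (by exact_mod_cast h)

lemma dist_def (p q : XX) : dist p q = (dN p q : ℝ) := rfl

instance : DiscreteTopology XX := by
  rw [discreteTopology_iff_isOpen_singleton]
  intro x
  have : ({x} : Set XX) = Metric.ball x 1 := by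
    ext y
    simp only [Set.mem_singleton_iff, Metric.mem_ball, dist_def]
    constructor
    · rintro rfl
      rw [dN_self]; norm_num
    · intro h
      have h1 : dN y x < 1 := by exact_mod_cast h
      exact eq_of_dN (by omega)
  rw [this]
  exact Metric.isOpen_ball

instance : MeasurableSpace XX := ⊤

instance : BorelSpace XX := ⟨borel_eq_top_of_discrete.symm⟩

instance : Countable XX := inferInstanceAs (Countable (Σ n, Qt n))

lemma piece_finite (k : ℕ) : {y : XX | y.1 < k}.Finite := by
  have h1 : {y : XX | y.1 < k} ⊆ ⋃ n ∈ Finset.range k, Set.range (fun q : Qt n => (⟨n, q⟩ : XX)) := by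
    rintro ⟨n, q⟩ hn
    exact Set.mem_biUnion (Finset.mem_range.2 hn) ⟨q, rfl⟩
  refine Set.Finite.subset ?_ h1
  exact Set.Finite.biUnion (Finset.finite_toSet _) fun n _ => Set.finite_range _

lemma bounded_geometry : ∀ R : ℝ, 0 < R → ∃ N : ℕ, ∀ x : XX,
    (Metric.ball x R).Finite ∧ (Metric.ball x R).ncard ≤ N := by
  intro R _
  set k : ℕ := ⌈R⌉₊ with hk
  have hsub : ∀ x : XX, Metric.ball x R ⊆
      (fun w : F => act w x) '' {w : F | w.norm ≤ k} ∪ {y : XX | y.1 < k} := by
    intro x y hy
    rw [Metric.mem_ball, dist_def] at hy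
    have h1 : dN y x ≤ k := by
      have : (dN y x : ℝ) ≤ k := hy.le.trans (Nat.le_ceil R)
      exact_mod_cast this
    rcases rel_dN y x with ⟨w, hw, hwy⟩ | h2
    · exact Or.inl ⟨w, hw.trans h1, hwy⟩
    · right
      show y.1 < k
      have := le_max_left y.1 x.1
      omega
  have hfin : ∀ x : XX, ((fun w : F => act w x) '' {w : F | w.norm ≤ k} ∪
      {y : XX | y.1 < k}).Finite := fun x => ((ball_finite k).image _).union (piece_finite k)
  refine ⟨{w : F | w.norm ≤ k}.ncard + {y : XX | y.1 < k}.ncard, fun x =>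
    ⟨(hfin x).subset (hsub x), ?_⟩⟩
  refine (Set.ncard_le_ncard (hsub x) (hfin x)).trans ((Set.ncard_union_le _ _).trans ?_)
  exact Nat.add_le_add_right (Set.ncard_image_le (ball_finite k)) _

end Pool.Agent.H872_pONL
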