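import Mathlib
import Pool.Agent.H872_pONL.Space

/-!
# The space does not have property A
-/

set_option autoImplicit false

namespace Pool.Agent.H872_pONL

/-- words whose reduced form starts with the letter `l` -/
abbrev SW (l : Bool × Bool) : Set F := FreeGroup.startsWith l

/-- the generator -/
def gen (i b : Bool) : F := FreeGroup.mk [(i, b)]

lemma gen_norm (i b : Bool) : (gen i b).norm ≤ 1 := by
  unfold gen
  exact FreeGroup.norm_mk_le

lemma gen_inv (i b : Bool) : (gen i b)⁻¹ = gen i (!b) := by
  unfold gen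
  rw [FreeGroup.inv_mk]
  rfl

lemma shift_mem (i b : Bool) (u : F) (hu : u ∉ SW (i, b)) : (gen i b)⁻¹ * u ∈ SW (i, !b) := by
  rw [gen_inv]
  exact FreeGroup.startsWith_mk_mul (w := (i, !b)) u (by simpa using hu)

section

variable (n : ℕ) (s : ℕ)

/-- the points of the `n`-th piece -/
def pt (q : Qt n) : XX := ⟨n, q⟩

lemma act_pt (w : F) (q : Qt n) : act w (pt n q) = pt n (ph n w * q) := rfl

open scoped Classical in
/-- the word that leads from a point to the base point -/
noncomputable def wd (q : Qt n) (z : XX) : F :=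
  if h : ∃ u : F, u.norm ≤ s ∧ act u⁻¹ (pt n q) = z then h.choose else 1

variable {n s}

lemma wd_spec {q : Qt n} {z : XX} (hsn : s ≤ n) (h : dN z (pt n q) ≤ s) :
    (wd n s q z).norm ≤ s ∧ act (wd n s q z)⁻¹ (pt n q) = z := by
  have hex : ∃ u : F, u.norm ≤ s ∧ act u⁻¹ (pt n q) = z := by
    rcases rel_dN z (pt n q) with ⟨w, hw, hwz⟩ | h2
    · exact ⟨w⁻¹, by rw [FreeGroup.norm_inv_eq]; exact hw.trans h, by rw [inv_inv]; exact hwz⟩
    · exfalso
      have h3 : n ≤ max z.1 (pt n q).1 := le_max_right _ _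
      omega
  unfold wd
  rw [dif_pos hex]
  exact hex.choose_spec

lemma act_inj {u v : F} {q : Qt n} (h : act u (pt n q) = act v (pt n q))
    (hn : u.norm + v.norm ≤ n) : u = v := by
  rw [act_pt, act_pt] at h
  have h1 : ph n u * q = ph n v * q := by
    unfold pt at h
    have := (Sigma.mk.inj_iff.1 h).2
    exact eq_of_heq this
  have h2 : ph n u = ph n v := mul_right_cancel h1
  have h3 : ph n (v⁻¹ * u) = 1 := by rw [map_mul, map_inv, h2, inv_mul_cancel]
  have h4 := ph_inj n (v⁻¹ * u) (by
    refine (FreeGroup.norm_mul_le _ _).trans ?_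
    rw [FreeGroup.norm_inv_eq]
    omega) h3
  exact (inv_mul_eq_one.1 h4).symm

lemma wd_shift {q : Qt n} {z : XX} {i b : Bool} (hsn : 2 * s + 1 ≤ n)
    (h : dN z (pt n q) ≤ s) (h' : dN z (pt n (ph n (gen i b) * q)) ≤ s) :
    wd n s q z = (gen i b)⁻¹ * wd n s (ph n (gen i b) * q) z := by
  obtain ⟨h1, h2⟩ := wd_spec (by omega) h
  obtain ⟨h3, h4⟩ := wd_spec (by omega) h'
  rw [← act_pt, ← act_mul] at h4
  have h5 := h2.trans h4.symm
  have h6 := act_inj h5 (by
    have e1 := FreeGroup.norm_mul_le ((wd n s (ph n (gen i b) * q) z)⁻¹) (gen i b)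
    have e2 := gen_norm i b
    rw [FreeGroup.norm_inv_eq] at e1 ⊢
    omega)
  rw [← inv_inj, h6, mul_inv_rev, inv_inv]

end

/-- Yu's property A fails for the space `XX`. -/
theorem not_propA : ¬ (∀ R : ℝ, 0 < R → ∀ ε : ℝ, 0 < ε →
        ∃ S : ℝ, ∃ A : XX → Set (XX × ℕ),
          (∀ x, (A x).Finite) ∧ (∀ x, (x, 0) ∈ A x) ∧
          (∀ x, ∀ w ∈ A x, dist w.1 x ≤ S) ∧
          ∀ x y, dist x y < R →
            ((symmDiff (A x) (A y)).ncard : ℝ) < ε * ((A x ∩ A y).ncard : ℝ)) := by
  classical
  intro hA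
  obtain ⟨S, A, hfin, h0, hS, hnear⟩ := hA 2 (by norm_num) (1 / 8) (by norm_num)
  set s : ℕ := ⌈S⌉₊ with hs
  set n : ℕ := 2 * s + 2 with hn
  have : Fintype (Qt n) := Fintype.ofFinite _
  have hd : ∀ q : Qt n, ∀ w ∈ A (pt n q), dN w.1 (pt n q) ≤ s := by
    intro q w hw
    have h1 := hS _ w hw
    rw [dist_def] at h1
    have h2 : (dN w.1 (pt n q) : ℝ) ≤ s := h1.trans (Nat.le_ceil S)
    exact_mod_cast h2
  let Af : Qt n → Finset (XX × ℕ) := fun q => (hfin (pt n q)).toFinset
  have hAf : ∀ q w, w ∈ Af q ↔ w ∈ A (pt n q) := fun q w => by simp [Af]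
  let N : Qt n → ℝ := fun q => ((Af q).card : ℝ)
  have hN : ∀ q, 0 < N q := by
    intro q
    have : 0 < (Af q).card := Finset.card_pos.2 ⟨(pt n q, 0), (hAf _ _).2 (h0 _)⟩
    change (0 : ℝ) < ((Af q).card : ℝ)
    exact_mod_cast this
  let M : Qt n → Bool × Bool → ℝ := fun q l =>
    (((Af q).filter fun w => wd n s q w.1 ∈ SW l).card : ℝ)
  have hMN : ∀ q l, M q l ≤ N q := by
    intro q l
    have := Finset.card_filter_le (Af q) (fun w => wd n s q w.1 ∈ SW l)
    change (((Af q).filter fun w => wd n s q w.1 ∈ SW l).card : ℝ) ≤ ((Af q).card : ℝ)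
    exact_mod_cast this
  have hM0 : ∀ q l, 0 ≤ M q l := fun q l => Nat.cast_nonneg _
  -- comparison of neighbours
  have hcmp : ∀ (q : Qt n) (i b : Bool),
      1 - M (ph n (gen i b) * q) (i, b) / N (ph n (gen i b) * q) ≤ M q (i, !b) / N q + 1 / 4 := by
    intro q i b
    set q' : Qt n := ph n (gen i b) * q with hq'
    have hdist : dist (pt n q') (pt n q) < 2 := by
      rw [dist_def]
      have : dN (pt n q') (pt n q) ≤ 1 := dN_le (Or.inl ⟨gen i b, gen_norm i b, by rw [act_pt]⟩)
      have : (dN (pt n q') (pt n q) : ℝ) ≤ 1 := by exact_mod_cast this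
      linarith
    have hcl := hnear _ _ hdist
    -- in terms of finsets
    have e1 : (symmDiff (A (pt n q')) (A (pt n q))).ncard =
        (Af q' \ Af q).card + (Af q \ Af q').card := by
      have : symmDiff (A (pt n q')) (A (pt n q)) = (((Af q' \ Af q) ∪ (Af q \ Af q') : Finset (XX × ℕ)) :
          Set (XX × ℕ)) := by
        ext w
        simp only [Set.mem_symmDiff, Finset.coe_union, Finset.coe_sdiff, Set.mem_union,
          Set.mem_sdiff, Finset.mem_coe, hAf]
      rw [this, Set.ncard_coe_finset, Finset.card_union_of_disjoint]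
      rw [Finset.disjoint_left]
      intro w hw hw'
      exact (Finset.mem_sdiff.1 hw).2 (Finset.mem_sdiff.1 hw').1
    have e2 : (A (pt n q') ∩ A (pt n q)).ncard = (Af q' ∩ Af q).card := by
      have : A (pt n q') ∩ A (pt n q) = ((Af q' ∩ Af q : Finset (XX × ℕ)) : Set (XX × ℕ)) := by
        ext w
        simp only [Set.mem_inter_iff, Finset.coe_inter, Finset.mem_coe, hAf]
      rw [this, Set.ncard_coe_finset]
    rw [e1, e2] at hcl
    push_cast at hcl
    have e3 : ((Af q' ∩ Af q).card : ℝ) ≤ N q' := by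
      have := Finset.card_le_card (Finset.inter_subset_left (s₁ := Af q') (s₂ := Af q))
      change ((Af q' ∩ Af q).card : ℝ) ≤ ((Af q').card : ℝ)
      exact_mod_cast this
    have e4 : ((Af q).card : ℝ) ≤ ((Af q' ∩ Af q).card : ℝ) + ((Af q \ Af q').card : ℝ) := by
      have := Finset.card_sdiff_add_card_inter (Af q) (Af q')
      rw [Finset.inter_comm] at this
      have h2 : (Af q).card = (Af q' ∩ Af q).card + (Af q \ Af q').card := by omega
      exact_mod_cast h2.le
    have hx0 : (0 : ℝ) ≤ ((Af q' \ Af q).card : ℝ) := Nat.cast_nonneg _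
    have hy0 : (0 : ℝ) ≤ ((Af q \ Af q').card : ℝ) := Nat.cast_nonneg _
    -- the words
    have e5 : N q' - M q' (i, b) ≤ M q (i, !b) + ((Af q' \ Af q).card : ℝ) := by
      have f1 : (Af q').card = ((Af q').filter fun w => wd n s q' w.1 ∈ SW (i, b)).card +
          ((Af q').filter fun w => ¬ wd n s q' w.1 ∈ SW (i, b)).card :=
        (Finset.card_filter_add_card_filter_not _).symm
      have f2 : ((Af q').filter fun w => ¬ wd n s q' w.1 ∈ SW (i, b)) ⊆
          ((Af q).filter fun w => wd n s q w.1 ∈ SW (i, !b)) ∪ (Af q' \ Af q) := by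
        intro w hw
        rw [Finset.mem_filter] at hw
        by_cases hwq : w ∈ Af q
        · rw [Finset.mem_union]
          left
          rw [Finset.mem_filter]
          refine ⟨hwq, ?_⟩
          rw [wd_shift (i := i) (b := b) (by omega) (hd q w ((hAf _ _).1 hwq))
            (hd q' w ((hAf _ _).1 hw.1))]
          exact shift_mem i b _ hw.2
        · rw [Finset.mem_union, Finset.mem_sdiff]
          exact Or.inr ⟨hw.1, hwq⟩
      have f3 := (Finset.card_le_card f2).trans (Finset.card_union_le _ _)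
      have f4 : (Af q').card ≤ ((Af q').filter fun w => wd n s q' w.1 ∈ SW (i, b)).card +
          (((Af q).filter fun w => wd n s q w.1 ∈ SW (i, !b)).card + (Af q' \ Af q).card) := by
        omega
      have f5 : N q' ≤ M q' (i, b) + (M q (i, !b) + ((Af q' \ Af q).card : ℝ)) := by
        change ((Af q').card : ℝ) ≤ (((Af q').filter fun w => wd n s q' w.1 ∈ SW (i, b)).card : ℝ) +
          ((((Af q).filter fun w => wd n s q w.1 ∈ SW (i, !b)).card : ℝ) +
            ((Af q' \ Af q).card : ℝ))
        exact_mod_cast f4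
      linarith
    have hN1 := hN q
    have hN2 := hN q'
    have hm := hMN q (i, !b)
    have hm0 := hM0 q (i, !b)
    -- divide
    have g1 : M q (i, !b) * N q ≤ (M q (i, !b) + 1 / 8 * N q) * N q' := by
      -- M (N q - N q') ≤ N q * (1/8) N q'
      have g2 : N q - N q' ≤ 1 / 8 * N q' := by
        have : N q ≤ ((Af q' ∩ Af q).card : ℝ) + ((Af q \ Af q').card : ℝ) := e4
        linarith
      have g3 : M q (i, !b) * (N q - N q') ≤ N q * (1 / 8 * N q') := by
        rcases le_total (N q - N q') 0 with g4 | g4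
        · have g5 : M q (i, !b) * (N q - N q') ≤ 0 := mul_nonpos_of_nonneg_of_nonpos hm0 g4
          have g6 : 0 ≤ N q * (1 / 8 * N q') := by positivity
          linarith
        · exact mul_le_mul hm g2 g4 hN1.le
      nlinarith
    have g7 : M q (i, !b) / N q' ≤ M q (i, !b) / N q + 1 / 8 := by
      have e : M q (i, !b) / N q + 1 / 8 = (M q (i, !b) + 1 / 8 * N q) / N q := by
        field_simp
      rw [e, div_le_div_iff₀ hN2 hN1]
      exact g1
    have g8 : 1 - M q' (i, b) / N q' = (N q' - M q' (i, b)) / N q' := by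
      field_simp
    rw [g8]
    calc (N q' - M q' (i, b)) / N q' ≤ (M q (i, !b) + 1 / 8 * N q') / N q' := by
          apply div_le_div_of_nonneg_right _ hN2.le
          linarith
      _ = M q (i, !b) / N q' + 1 / 8 := by field_simp
      _ ≤ M q (i, !b) / N q + 1 / 4 := by linarith
  -- averages
  have hsum : ∀ (i : Bool), ∑ q : Qt n, (3 / 4 : ℝ) ≤
      ∑ q : Qt n, (M q (i, true) / N q + M q (i, false) / N q) := by
    intro i
    have h1 : ∑ q : Qt n, (1 - M (ph n (gen i true) * q) (i, true) / N (ph n (gen i true) * q)) ≤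
        ∑ q : Qt n, (M q (i, false) / N q + 1 / 4) :=
      Finset.sum_le_sum fun q _ => hcmp q i true
    have h2 : ∑ q : Qt n, (1 - M (ph n (gen i true) * q) (i, true) / N (ph n (gen i true) * q)) =
        ∑ q : Qt n, (1 - M q (i, true) / N q) :=
      Equiv.sum_comp (Equiv.mulLeft (ph n (gen i true))) (fun q => 1 - M q (i, true) / N q)
    rw [h2] at h1
    simp only [Finset.sum_add_distrib, Finset.sum_sub_distrib, Finset.sum_const, nsmul_eq_mul] at h1 ⊢
    linarith
  have hfour : ∀ q : Qt n, (M q (true, true) / N q + M q (true, false) / N q) +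
      (M q (false, true) / N q + M q (false, false) / N q) ≤ 1 := by
    intro q
    have hpair : ∀ l : Finset (Bool × Bool), ∑ x ∈ l, ((Af q).filter fun w => wd n s q w.1 ∈ SW x).card
        ≤ (Af q).card := by
      intro l
      rw [← Finset.card_biUnion]
      · apply Finset.card_le_card
        intro w hw
        rw [Finset.mem_biUnion] at hw
        obtain ⟨x, _, hx⟩ := hw
        exact (Finset.mem_filter.1 hx).1
      · intro x _ y _ hxy
        rw [Function.onFun, Finset.disjoint_left]
        intro w hw hw'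
        have h1 := (FreeGroup.startsWith.disjoint_iff_ne (w := x) (w' := y)).2 hxy
        exact Set.disjoint_left.1 h1 (Finset.mem_filter.1 hw).2 (Finset.mem_filter.1 hw').2
    have h1 := hpair Finset.univ
    have h2 : ∑ x : Bool × Bool, ((Af q).filter fun w => wd n s q w.1 ∈ SW x).card =
        ((Af q).filter fun w => wd n s q w.1 ∈ SW (true, true)).card +
        ((Af q).filter fun w => wd n s q w.1 ∈ SW (true, false)).card +
        (((Af q).filter fun w => wd n s q w.1 ∈ SW (false, true)).card +
        ((Af q).filter fun w => wd n s q w.1 ∈ SW (false, false)).card) := by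
      rw [Fintype.sum_prod_type]
      simp
    rw [h2] at h1
    have h3 : (M q (true, true) + M q (true, false)) + (M q (false, true) + M q (false, false)) ≤
        N q := by
      change ((((Af q).filter fun w => wd n s q w.1 ∈ SW (true, true)).card : ℝ) +
        (((Af q).filter fun w => wd n s q w.1 ∈ SW (true, false)).card : ℝ)) +
        ((((Af q).filter fun w => wd n s q w.1 ∈ SW (false, true)).card : ℝ) +
        (((Af q).filter fun w => wd n s q w.1 ∈ SW (false, false)).card : ℝ)) ≤ ((Af q).card : ℝ)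
      exact_mod_cast h1
    rw [← add_div, ← add_div, ← add_div, div_le_one (hN q)]
    exact h3
  have h1 := hsum true
  have h2 := hsum false
  have h3 : ∑ q : Qt n, ((M q (true, true) / N q + M q (true, false) / N q) +
      (M q (false, true) / N q + M q (false, false) / N q)) ≤ ∑ q : Qt n, (1 : ℝ) :=
    Finset.sum_le_sum fun q _ => hfour q
  rw [Finset.sum_add_distrib] at h3
  have h4 : (0 : ℝ) < Fintype.card (Qt n) := by
    have : 0 < Fintype.card (Qt n) := Fintype.card_pos
    exact_mod_cast this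
  simp only [Finset.sum_const, nsmul_eq_mul, Finset.card_univ] at h1 h2 h3
  linarith

end Pool.Agent.H872_pONL
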