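import Mathlib

/-!
# Operators on `L¹` of a countable discrete space attain their norm, up to a factor, on one point
-/

set_option autoImplicit false

open MeasureTheory Filter Topology
open scoped ENNReal

namespace Pool.Agent.H872_pONL

variable {X : Type} [MeasurableSpace X] {E : Type} [NormedAddCommGroup E] [NormedSpace ℝ E]

/-- restriction of an `L¹` function to a set -/
noncomputable def restr {ν : Measure X} (s : Set X) (hs : MeasurableSet s) (g : Lp E 1 ν) :
    Lp E 1 ν :=
  MemLp.toLp (s.indicator g) ((Lp.memLp g).indicator hs)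

lemma restr_coe {ν : Measure X} (s : Set X) (hs : MeasurableSet s) (g : Lp E 1 ν) :
    ⇑(restr s hs g) =ᵐ[ν] s.indicator g := MemLp.coeFn_toLp _

lemma norm_restr {ν : Measure X} (s : Set X) (hs : MeasurableSet s) (g : Lp E 1 ν) :
    ‖restr s hs g‖ = (∫⁻ x in s, ‖g x‖ₑ ∂ν).toReal := by
  rw [restr, Lp.norm_toLp, eLpNorm_one_eq_lintegral_enorm]
  congr 1
  rw [← lintegral_indicator hs]
  congr 1
  funext x
  by_cases hx : x ∈ s
  · simp [hx]
  · simp [hx]

lemma lint_lt_top {ν : Measure X} (g : Lp E 1 ν) : ∫⁻ x, ‖g x‖ₑ ∂ν < ⊤ := by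
  have := Lp.eLpNorm_lt_top g
  rwa [eLpNorm_one_eq_lintegral_enorm] at this

lemma norm_eq {ν : Measure X} (g : Lp E 1 ν) : ‖g‖ = (∫⁻ x, ‖g x‖ₑ ∂ν).toReal := by
  rw [Lp.norm_def, eLpNorm_one_eq_lintegral_enorm]

variable [MeasurableSingletonClass X]

lemma restr_finset_eq_sum {ν : Measure X} (F : Finset X) (g : Lp E 1 ν) :
    restr (F : Set X) F.measurableSet g = ∑ x ∈ F, restr {x} (measurableSet_singleton x) g := by
  classical
  apply Lp.ext
  refine (restr_coe _ _ g).trans ?_
  have h1 : ⇑(∑ x ∈ F, restr {x} (measurableSet_singleton x) g) =ᵐ[ν]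
      fun z => ∑ x ∈ F, (restr {x} (measurableSet_singleton x) g : X → E) z := by
    have := Lp.coeFn_finsetSum (μ := ν) (p := 1) F
      (fun x => restr {x} (measurableSet_singleton x) g)
    refine this.trans (Eventually.of_forall fun z => ?_)
    simp
  have h2 : ∀ᵐ z ∂ν, ∀ x ∈ F, (restr {x} (measurableSet_singleton x) g : X → E) z =
      ({x} : Set X).indicator g z := by
    rw [eventually_all_finset]
    intro x _
    exact restr_coe _ _ g
  filter_upwards [h1, h2] with z e1 e2
  rw [e1, Finset.sum_congr rfl e2]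
  by_cases hz : z ∈ F
  · rw [Finset.sum_eq_single z]
    · simp [hz]
    · intro b _ hb
      simp [Ne.symm hb]
    · intro h; exact absurd hz h
  · rw [Finset.sum_eq_zero]
    · simp [hz]
    · intro x hx
      have : z ≠ x := fun h => hz (h ▸ hx)
      simp [this]

lemma sum_norm_restr_le {ν : Measure X} (F : Finset X) (g : Lp E 1 ν) :
    ∑ x ∈ F, ‖restr {x} (measurableSet_singleton x) g‖ ≤ ‖g‖ := by
  classical
  simp_rw [norm_restr]
  have hfin : ∀ x ∈ F, (∫⁻ z in {x}, ‖g z‖ₑ ∂ν) ≠ ⊤ := fun x _ =>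
    ((setLIntegral_le_lintegral _ _).trans_lt (lint_lt_top g)).ne
  rw [← ENNReal.toReal_sum hfin, norm_eq]
  apply ENNReal.toReal_mono (lint_lt_top g).ne
  have h1 : ∑ x ∈ F, ∫⁻ z in {x}, ‖g z‖ₑ ∂ν = ∫⁻ z in ⋃ x ∈ F, {x}, ‖g z‖ₑ ∂ν := by
    rw [lintegral_biUnion_finset]
    · intro a _ b _ hab
      simpa using hab
    · intro x _
      exact measurableSet_singleton x
  rw [h1]
  exact setLIntegral_le_lintegral _ _

lemma bound_all [Countable X] {ν : Measure X} (T : Lp E 1 ν →L[ℝ] Lp E 1 ν) (c : ℝ) (hc : 0 ≤ c)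
    (h : ∀ (x : X) (g : Lp E 1 ν), ‖T (restr {x} (measurableSet_singleton x) g)‖ ≤
      c * ‖restr {x} (measurableSet_singleton x) g‖) (g : Lp E 1 ν) : ‖T g‖ ≤ c * ‖g‖ := by
  classical
  have hF : ∀ F : Finset X, ‖T (restr (F : Set X) F.measurableSet g)‖ ≤ c * ‖g‖ := by
    intro F
    rw [restr_finset_eq_sum, map_sum]
    calc ‖∑ x ∈ F, T (restr {x} (measurableSet_singleton x) g)‖
        ≤ ∑ x ∈ F, ‖T (restr {x} (measurableSet_singleton x) g)‖ := norm_sum_le _ _
      _ ≤ ∑ x ∈ F, c * ‖restr {x} (measurableSet_singleton x) g‖ :=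
          Finset.sum_le_sum fun x _ => h x g
      _ = c * ∑ x ∈ F, ‖restr {x} (measurableSet_singleton x) g‖ := by rw [Finset.mul_sum]
      _ ≤ c * ‖g‖ := mul_le_mul_of_nonneg_left (sum_norm_restr_le F g) hc
  obtain ⟨e, he⟩ := Countable.exists_injective_nat X
  set s : ℕ → Set X := fun n => {x | n ≤ e x} with hs
  have hsc : ∀ n, (s n)ᶜ.Finite := by
    intro n
    have : (s n)ᶜ = e ⁻¹' (Set.Iio n) := by ext x; simp [hs]
    rw [this]
    exact (Set.finite_Iio n).preimage he.injOn
  have hsm : ∀ n, MeasurableSet (s n) := fun n => by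
    have := (hsc n).measurableSet.compl
    rwa [compl_compl] at this
  have hlim : Tendsto (fun n => restr ((hsc n).toFinset : Set X) (Finset.measurableSet _) g) atTop
      (𝓝 g) := by
    rw [tendsto_iff_norm_sub_tendsto_zero]
    have h1 : ∀ n, ‖restr ((hsc n).toFinset : Set X) (Finset.measurableSet _) g - g‖ =
        (∫⁻ x in s n, ‖g x‖ₑ ∂ν).toReal := by
      intro n
      rw [← norm_restr (s n) (hsm n), ← norm_neg]
      congr 1
      apply Lp.ext
      filter_upwards [Lp.coeFn_neg (restr ((hsc n).toFinset : Set X) (Finset.measurableSet _) g - g),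
        Lp.coeFn_sub (restr ((hsc n).toFinset : Set X) (Finset.measurableSet _) g) g,
        restr_coe ((hsc n).toFinset : Set X) (Finset.measurableSet _) g,
        restr_coe (s n) (hsm n) g] with x e1 e2 e3 e4
      rw [e1, Pi.neg_apply, e2, Pi.sub_apply, e3, e4]
      by_cases hx : x ∈ s n
      · simp [hx]
      · simp [hx]
    simp_rw [h1]
    have hν : IsFiniteMeasure (ν.withDensity fun x => ‖g x‖ₑ) :=
      isFiniteMeasure_withDensity (lint_lt_top g).ne
    have h2 : Tendsto (fun n => (ν.withDensity fun x => ‖g x‖ₑ) (s n)) atTop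
        (𝓝 ((ν.withDensity fun x => ‖g x‖ₑ) (⋂ n, s n))) := by
      apply tendsto_measure_iInter_atTop
      · intro n; exact (hsm n).nullMeasurableSet
      · intro a b hab x hx
        exact le_trans hab hx
      · exact ⟨0, measure_ne_top _ _⟩
    have h3 : ⋂ n, s n = ∅ := by
      ext x
      simp only [Set.mem_iInter, Set.mem_empty_iff_false, iff_false, not_forall]
      exact ⟨e x + 1, by simp [hs]⟩
    rw [h3, measure_empty] at h2
    have h4 : ∀ n, (ν.withDensity fun x => ‖g x‖ₑ) (s n) = ∫⁻ x in s n, ‖g x‖ₑ ∂ν :=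
      fun n => withDensity_apply _ (hsm n)
    simp_rw [h4] at h2
    have h5 := (ENNReal.tendsto_toReal ENNReal.zero_ne_top).comp h2
    simpa [Function.comp_def] using h5
  exact le_of_tendsto ((T.continuous.tendsto g).comp hlim).norm
    (Eventually.of_forall fun n => hF _)

/-- Every bounded operator on `L¹(X, ν; E)`, `X` countable, attains half of its norm on a nonzero
function supported on one point. -/
theorem exists_point [Countable X] [Nontrivial E] {ν : Measure X} (hν : ν ≠ 0)
    (hfin : ∀ x, ν {x} ≠ ⊤) (T : Lp E 1 ν →L[ℝ] Lp E 1 ν) :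
    ∃ ξ : Lp E 1 ν, ξ ≠ 0 ∧ (∃ x : X, ∀ᵐ z ∂ν, z ∉ ({x} : Set X) → ⇑ξ z = 0) ∧
      1 / 2 * ‖T‖ * ‖ξ‖ ≤ ‖T ξ‖ := by
  classical
  rcases eq_or_lt_of_le (norm_nonneg T) with h0 | hpos
  · have hx : ∃ x, ν {x} ≠ 0 := by
      by_contra hcon
      push Not at hcon
      apply hν
      rw [← Measure.measure_univ_eq_zero]
      have : (Set.univ : Set X) = ⋃ x : X, {x} := by ext; simp
      rw [this]
      exact measure_iUnion_null hcon
    obtain ⟨x, hx⟩ := hx
    obtain ⟨v, hv⟩ := exists_ne (0 : E)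
    refine ⟨indicatorConstLp 1 (measurableSet_singleton x) (hfin x) v, ?_, ⟨x, ?_⟩, ?_⟩
    · intro h
      have h1 := norm_indicatorConstLp (p := 1) (μ := ν) (s := {x})
        (hs := measurableSet_singleton x) (hμs := hfin x) (c := v) one_ne_zero ENNReal.one_ne_top
      rw [h, norm_zero] at h1
      have h2 : 0 < ‖v‖ := norm_pos_iff.2 hv
      have h3 : 0 < ν.real {x} := ENNReal.toReal_pos hx (hfin x)
      have h4 : 0 < ‖v‖ * ν.real {x} ^ (1 / (1 : ℝ≥0∞).toReal) := by positivity
      linarith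
    · filter_upwards [indicatorConstLp_coeFn (p := 1) (μ := ν) (s := {x})
        (hs := measurableSet_singleton x) (hμs := hfin x) (c := v)] with z hz hzx
      rw [hz, Set.indicator_of_notMem hzx]
    · rw [← h0]
      simp
  · by_contra hcon
    push Not at hcon
    have hb : ∀ (x : X) (g : Lp E 1 ν), ‖T (restr {x} (measurableSet_singleton x) g)‖ ≤
        (1 / 2 * ‖T‖) * ‖restr {x} (measurableSet_singleton x) g‖ := by
      intro x g
      by_cases hz : restr {x} (measurableSet_singleton x) g = 0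
      · rw [hz]; simp
      · refine (hcon _ hz ⟨x, ?_⟩).le
        filter_upwards [restr_coe {x} (measurableSet_singleton x) g] with z hz' hzx
        rw [hz', Set.indicator_of_notMem hzx]
    have h1 := T.opNorm_le_bound (by positivity) (bound_all T (1 / 2 * ‖T‖) (by positivity) hb)
    linarith

end Pool.Agent.H872_pONL
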